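import Pool.Agent.Lib.MP_6bc78b_nt.MS.P4.Iface2

/-! Project MS, Part IV, module CERTK: the certificate at zeros of multiplicity at least `k`. -/

set_option autoImplicit false

open Complex Filter Topology ArithmeticFunction

namespace Pool.Agent.Lib.MP_6bc78b_nt.MS.P4.H50

open Pool.Agent.Lib.MP_6bc78b_nt Pool.Agent.Lib.MP_6bc78b_nt.MS

/-- The pointwise inequality. -/
theorem point {be ε e' : ℝ} {k m : ℕ} {l r : ℝ} {v B : ℂ} {L : ℂ} (hk : 2 ≤ k) (hkm : k ≤ m)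
    (hbe : 0 ≤ be) (he : be * e' ≤ ε / 2) (he0 : 0 ≤ be * e') (hε1 : ε < 1)
    (hv : v = 0) (hl : l = 1 - r) (hB : B.re ≤ r - (m : ℝ) / 2 + e') :
    (1 - ε) * (1 + be * ((k : ℝ) / 2 - 1)) ^ 2 ≤
      ‖1 - v / L - (be : ℂ) * (((l : ℝ) : ℂ) + B)‖ ^ 2 := by
  have hk' : (2 : ℝ) ≤ k := by exact_mod_cast hk
  have hkm' : (k : ℝ) ≤ m := by exact_mod_cast hkm
  set y : ℝ := be * ((k : ℝ) / 2 - 1) with hy
  have hy0 : 0 ≤ y := mul_nonneg hbe (by linarith)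
  have hre : (1 - v / L - (be : ℂ) * (((l : ℝ) : ℂ) + B)).re = 1 - be * (l + B.re) := by
    rw [hv]
    simp
  have h1 : 1 + y - be * e' ≤ 1 - be * (l + B.re) := by
    have h2 : be * (l + B.re) ≤ be * (1 - (k : ℝ) / 2 + e') := by
      refine mul_le_mul_of_nonneg_left ?_ hbe
      rw [hl]
      linarith
    have h3 : be * (1 - (k : ℝ) / 2 + e') = - y + be * e' := by
      rw [hy]
      ring
    linarith
  have h4 : (1 - be * e') * (1 + y) ≤ 1 - be * (l + B.re) := by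
    have h5 : 0 ≤ be * e' * y := mul_nonneg he0 hy0
    nlinarith
  have h6 : 0 ≤ (1 - be * e') * (1 + y) := mul_nonneg (by linarith) (by linarith)
  have h7 : ((1 - be * e') * (1 + y)) ^ 2 ≤
      ‖1 - v / L - (be : ℂ) * (((l : ℝ) : ℂ) + B)‖ ^ 2 := by
    refine (pow_le_pow_left₀ h6 h4 2).trans ?_
    rw [← hre, ← sq_abs]
    exact pow_le_pow_left₀ (abs_nonneg _) (Complex.abs_re_le_norm _) 2
  refine le_trans ?_ h7
  rw [mul_pow]
  refine mul_le_mul_of_nonneg_right ?_ (sq_nonneg _)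
  nlinarith [sq_nonneg (be * e')]

/-- (CERTK). -/
theorem certk (hPT : PTStatement) (hZ : ZfacStatement) : CertkStatement := by
  intro k th lam c1 c2 be ε hk hlam hlam1 hbe hε hε1
  have he' : 0 < ε / (2 * (be + 1)) := by positivity
  have hbe' : be * (ε / (2 * (be + 1))) ≤ ε / 2 := by
    rw [mul_div_assoc', div_le_div_iff₀ (by positivity) (by norm_num)]
    nlinarith
  filter_upwards [hPT lam (ε / (2 * (be + 1))) hlam hlam1 he'] with T hT
  have hfin : (zset T).Finite := hZ.2.2.2.2.2.2 T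
  have hfin2 : {γ | γ ∈ zset T ∧ k ≤ mz γ}.Finite := hfin.subset fun γ h => h.1
  have h2 : (∑ᶠ γ ∈ {γ | γ ∈ zset T ∧ k ≤ mz γ}, (mz γ : ℝ) * wt T γ) =
      ∑ γ ∈ hfin2.toFinset, (mz γ : ℝ) * wt T γ := finsum_mem_eq_finite_toFinset_sum _ hfin2
  change (1 - ε) * (1 + be * ((k : ℝ) / 2 - 1)) ^ 2 *
    (∑ᶠ γ ∈ {γ | γ ∈ zset T ∧ k ≤ mz γ}, (mz γ : ℝ) * wt T γ) ≤ _
  rw [h2, Finset.mul_sum]
  unfold QS
  rw [finsum_mem_eq_finite_toFinset_sum _ hfin]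
  have hsub : hfin2.toFinset ⊆ hfin.toFinset := by
    intro γ h
    rw [Set.Finite.mem_toFinset] at h ⊢
    exact h.1
  refine le_trans (Finset.sum_le_sum fun γ hγ => ?_)
    (Finset.sum_le_sum_of_subset_of_nonneg hsub fun γ _ _ => ?_)
  · rw [Set.Finite.mem_toFinset] at hγ
    have h0 : 0 ≤ (mz γ : ℝ) * wt T γ := mul_nonneg (Nat.cast_nonneg _) (Real.exp_pos _).le
    have hv : vv th c1 c2 T (1 / 2 + γ * I) = 0 := by
      unfold vv
      rw [hZ.2.2.2.2.1 γ (hk.trans hγ.2), zero_mul]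
    have hB := hT γ hγ.1
    have h1 := point (L := (Real.log T : ℂ)) (l := 1 - 1 / (2 * lam)) (r := 1 / (2 * lam))
      (v := vv th c1 c2 T (1 / 2 + γ * I)) (B := BB lam T (1 / 2 + γ * I)) hk hγ.2 hbe hbe'
      (mul_nonneg hbe he'.le) hε1 hv rfl hB
    calc (1 - ε) * (1 + be * ((k : ℝ) / 2 - 1)) ^ 2 * ((mz γ : ℝ) * wt T γ)
        = (mz γ : ℝ) * wt T γ * ((1 - ε) * (1 + be * ((k : ℝ) / 2 - 1)) ^ 2) := by ring
      _ ≤ _ := mul_le_mul_of_nonneg_left h1 h0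
  · exact mul_nonneg (mul_nonneg (Nat.cast_nonneg _) (Real.exp_pos _).le) (sq_nonneg _)

end Pool.Agent.Lib.MP_6bc78b_nt.MS.P4.H50
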